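import Pool.Agent.W5h21.LP.Exp

/-!
# Leopoldt's conjecture for 100% of the members of a family with several parameters

Let `k` be a number field, `f ∈ 𝓞_k[t_1, ..., t_s][X]` monic in `X` and `u_1, ..., u_r` units of
`A = 𝓞_k[t_1, ..., t_s][X] / (f)` which are independent modulo constants: if a product
`∏ u_i ^ c_i` is integral over `𝓞_k` then `c = 0`.  Let `p` be a prime number.  For every `ε > 0`
every cube of sufficiently large side `B` in `ℤ^s` contains at most `ε B ^ s` points `t` such that
some number field `K = k(θ)` with `f(t, θ) = 0` and `[K : k] = deg f` violates: the closure of the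
group of units of `K` congruent to `1` modulo all primes above `p` has `ℤ_p`-rank at least `r`, and
Leopoldt's conjecture holds for `K` and `p` if `K` has unit rank at most `r`.

In particular, for `100%` of the `b ∈ ℤ ^ n` (`n = m + 1 ≥ 1`) the polynomial
`(X - b_1) ⋯ (X - b_n) - 1` is irreducible, the field generated by a root is totally real of degree
`n`, and Leopoldt's conjecture holds for it and `p`.

Proof.  Let `Z ⊆ ℤ_p ^ s` be the set of the parameters at which the matrix of the logarithms of the
units at the roots has rank `< r`.  It is closed, since the roots depend continuously on the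
parameters.  Let `v ∈ ℤ_p ^ s` be a direction outside all hypersurfaces defined over `k`.  On a
line `b + x v` the units stay independent modulo constants (the coefficients of a characteristic
polynomial of a product stay nonconstant), so at some place of the family above `x = ∞` their orders
are independent; by Ostrowski's theorem on primitives and the Puiseux parametrisation of the family
near every `p`-adic point of the line (branch points included), `Z` meets the line in a finite set.
By Fubini's theorem `Z` is a null set for the Haar measure, so it meets `o(p ^ (N s))` residue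
classes modulo `p ^ N`.
-/

set_option autoImplicit false

namespace Pool.Agent.Results.MP_5f2860_nt.AlmostAllMembers

open Polynomial NumberField IntermediateField Pool.Agent.W254.LF Pool.Agent.W5h21.LP

/-- **Main result.** -/
theorem result :
    (∀ (p : ℕ) [Fact p.Prime] (k : Type) [Field k] [NumberField k] (s r : ℕ)
      (f : (MvPolynomial (Fin s) (𝓞 k))[X]), f.Monic → ∀ u : Fin r → (AdjoinRoot f)ˣ,
      (∀ c : Fin r → ℤ,
        IsIntegral (𝓞 k) ((∏ i, u i ^ c i : (AdjoinRoot f)ˣ) : AdjoinRoot f) → c = 0) →
      ∀ ε : ℝ, 0 < ε → ∃ B₀ : ℕ, ∀ B : ℕ, B₀ ≤ B → ∀ a : Fin s → ℤ,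
        (({t : Fin s → ℤ | ∀ i, a i ≤ t i ∧ t i < a i + B} ∩
          {t : Fin s → ℤ | ¬ ∀ (K : Type) [Field K] [NumberField K] [Algebra k K] (θ : K),
            aeval θ ((f.map (MvPolynomial.eval fun i => ((t i : ℤ) : 𝓞 k))).map
              (algebraMap (𝓞 k) k)) = 0 → k⟮θ⟯ = ⊤ → Module.finrank k K = f.natDegree →
            PadicRankGE K p r ∧ (Units.rank K ≤ r → LeopoldtAt K p)}).ncard : ℝ) ≤
          ε * (B : ℝ) ^ s) ∧
    (∀ (p : ℕ) [Fact p.Prime] (m : ℕ) (ε : ℝ), 0 < ε →
      ∃ B₀ : ℕ, ∀ B : ℕ, B₀ ≤ B → ∀ a : Fin (m + 1) → ℤ,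
        (({b : Fin (m + 1) → ℤ | ∀ i, a i ≤ b i ∧ b i < a i + B} ∩
          {b : Fin (m + 1) → ℤ | ¬ (Irreducible (∏ i, (X - C ((b i : ℤ) : ℚ)) - 1 : ℚ[X]) ∧
            ∀ (K : Type) [Field K] [NumberField K] (θ : K), ∏ i, (θ - ((b i : ℤ) : K)) = 1 →
              ℚ⟮θ⟯ = ⊤ → Module.finrank ℚ K = m + 1 ∧ IsTotallyReal K ∧
                LeopoldtAt K p)}).ncard : ℝ) ≤
          ε * (B : ℝ) ^ (m + 1)) :=
  ⟨fun p _ k _ _ s r f hf u hu ε hε => mainM p k s r f hf u hu ε hε,
    fun p _ m ε hε => mainE p m ε hε⟩

end Pool.Agent.Results.MP_5f2860_nt.AlmostAllMembers
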