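import Mathlib
import Pool.Agent.W5h36.LQ.Main
import Pool.Agent.W5h36.LQ.Grp
import Pool.Agent.Y758.LC.DSC

/-!
# Leopoldt's conjecture for reduced Hecke algebras, quaternion fields at `p = 2`

Let `K / k` be a finite Galois extension with group `G`, where `k` is `ℚ` or an imaginary quadratic
field, let `w` be an infinite place of `K`, `D_w` its decomposition group (trivial, or generated by a
complex conjugation) and `p` a prime. If the `ℚ_p`-algebra of the elements of `ℚ_p[G]` which are
invariant under `D_w` from both sides (that is `ℚ_p[G]` itself if `D_w` is trivial) has no nonzero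
nilpotent elements, then Leopoldt's conjecture at `p` holds for `K` and for all its subfields. In
terms of the irreducible characters `χ` of `G` the hypothesis says: the dimension of the space of the
vectors invariant under `D_w` is zero or the Schur index of `χ` over `ℚ_p`.

For `p = 2` this applies to all Galois extensions `K / ℚ`, and `K / k` with `k` imaginary quadratic,
with group `Q_8 × C_2 ^ n`, in particular to all totally real quaternion fields.

Proof. Some unit `ε` fixed by `D_w` generates a subgroup of finite index of the units as a Galois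
module. The `x ∈ ℚ_p[G]` such that `x ε` is in the kernel of Leopoldt's map form a left ideal; by
Maschke's theorem its elements invariant under `D_w` from the right are the multiples of an
idempotent `e` invariant from both sides, which by hypothesis is central in the Hecke algebra and
therefore has algebraic coefficients. So `e ε` is a relation with algebraic coefficients between
logarithms of algebraic numbers, and it is trivial by Brumer's theorem.
-/

set_option autoImplicit false

namespace Pool.Agent.Results.MP_5f2860_nt.ReducedHeckeAlgebra

open NumberField Filter Topology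

/-- Leopoldt's conjecture for the number field `K` and the prime `p`, in the form of the frozen
statement: units of `K` congruent to `1` at all primes above `p` which are multiplicatively
independent over `ℤ` stay independent over `ℤ_p` in the product of the completions above `p`. -/
def Leopoldt (K : Type) [Field K] [NumberField K] (p : ℕ) [Fact p.Prime] : Prop :=
  ∀ (n : ℕ) (ε : Fin n → (𝓞 K)ˣ),
    (∀ i, ((ε i : 𝓞 K) - 1) ∈ (Ideal.span {((p : ℕ) : 𝓞 K)}).radical) →
    (∀ c : Fin n → ℤ, ∏ i, ε i ^ c i = 1 → c = 0) →
    ∀ (a : Fin n → PadicInt p) (m : ℕ → Fin n → ℤ),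
      (∀ i, Tendsto (fun k => ((m k i : ℤ) : PadicInt p)) atTop (𝓝 (a i))) →
      (∀ N : ℕ, ∀ᶠ k in atTop,
        ((p : ℕ) : 𝓞 K) ^ N ∣ (((∏ i, ε i ^ m k i : (𝓞 K)ˣ) : 𝓞 K) - 1)) →
      a = 0

/-- The elements of the group algebra over `ℚ_p` of the Galois group of `K / k` which are invariant
from both sides under the decomposition group of the infinite place `w` contain no nonzero
nilpotent element. -/
def ReducedHeckeAlgebra (p : ℕ) [Fact p.Prime] (k K : Type) [Field k] [Field K] [Algebra k K]
    (w : InfinitePlace K) : Prop :=
  ∀ x : MonoidAlgebra ℚ_[p] (K ≃ₐ[k] K),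
    (∀ h : K ≃ₐ[k] K, h • w = w →
      MonoidAlgebra.single h 1 * x = x ∧ x * MonoidAlgebra.single h 1 = x) →
    x * x = 0 → x = 0

/-- **Main result.** -/
theorem result :
    (∀ (p : ℕ) [Fact p.Prime] (k K : Type) [Field k] [NumberField k] [Field K] [NumberField K]
      [Algebra k K] [IsGalois k K], Subsingleton (InfinitePlace k) →
      ∀ w : InfinitePlace K, ReducedHeckeAlgebra p k K w →
        ∀ (E : Type) [Field E] [NumberField E] (_ : E →+* K), Leopoldt E p) ∧
    (∀ (k K : Type) [Field k] [NumberField k] [Field K] [NumberField K] [Algebra k K]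
      [IsGalois k K], Subsingleton (InfinitePlace k) →
      (∃ n : ℕ, Nonempty ((K ≃ₐ[k] K) ≃*
        QuaternionGroup 2 × (Fin n → Multiplicative (ZMod 2)))) → Leopoldt K 2) := by
  refine ⟨fun p _ k K _ _ _ _ _ _ hk w hw E _ _ f => ?_, fun k K _ _ _ _ _ _ hk hG => ?_⟩
  · exact Pool.Agent.Y758.LC.dsc E K f p
      (Pool.Agent.W5h36.LQ.leo p k K hk w (fun x hx => hw x hx))
  · obtain ⟨n, ⟨e⟩⟩ := hG
    obtain ⟨w⟩ : Nonempty (InfinitePlace K) := inferInstance
    exact Pool.Agent.W5h36.LQ.leo 2 k K hk w
      (Pool.Agent.W5h36.LQ.Red.of_redG (Pool.Agent.W5h36.LQ.redG_ham n _ e) _)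

end Pool.Agent.Results.MP_5f2860_nt.ReducedHeckeAlgebra
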