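import Pool.Agent.W5h5.LD.Main2
import Pool.Agent.W5h5.LD.Dens

/-!
# Leopoldt's conjecture for `100%` of the members of a family and all primes in a growing range

Let `r₁ + r₂ ≥ 1`, `a_1, …, a_{r₁}` distinct integers, `(b_k, c_k)` (`k ≤ r₂`) distinct pairs of
integers with `c_k > 0`, and `f_t = ∏ (Y - a_i t) ∏ ((Y - b_k t)² + c_k t²) - 1`.

(1) There are a finite set `S₀` of integers and, for each prime `p`, a finite set `S_p` of integers
which has at most `r = r₁ + r₂ - 1` elements in each residue class modulo `p` and none in the class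
of `0`, such that for all `t ∉ S₀` the polynomial `f_t` is irreducible, `K_t = ℚ[Y]/(f_t)` has `r₁`
real and `r₂` complex places, and Leopoldt's conjecture holds for `K_t` and ALL primes `p` with
`t ∉ S_p`, ramified or not; for example for all `p` which divide `t`.

(2) For `100%` of the integers `|t| ≤ X` Leopoldt's conjecture holds for `K_t` and all primes
`p ≤ C √X` simultaneously, and also for all prime divisors of `t`.

(3) If `P(X) = o(X)` then for `100%` of the integers `|t| ≤ X` Leopoldt's conjecture holds for `K_t`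
and `100%` of the primes `p ≤ P(X)`.

Proof.  Let `p ≥ n + 2` be large and `p ∤ t₀`, `n = deg f_t`.  If `t ≡ t₀ mod p` is exceptional then
for each `N` there is a product `∏ u_i ^ {M m_i} ≡ 1 mod p ^ N` in `ℤ[Y]/(f_t)` of powers of the
units with some `m_i` prime to `p`.  For `t = t₀ + p s` the logarithms of the `u_i ^ M`, multiplied by
`f_t'(θ)`, are power series in `s` over `ℤ[Y]/(f_{t₀})` whose reductions (after division by `p`) are
of degree `≤ 1` in `s`; the coefficients of `s` are the logarithmic derivatives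
`(∂_Y f ∂_T u_i - ∂_T f ∂_Y u_i) / u_i`.  By the homogeneity of the family these are independent
over `𝔽_p` at *every* `t₀ ≢ 0` for all but finitely many `p`, the zeros of the discriminant included.
Hence some `r × r` determinant is a power series in `s` whose reduction is a nonzero polynomial of
degree `≤ r` and there are at most `r` exceptional `t` in each class.  In the class of `0` an
expansion at `t = 0` shows that there are no exceptional `t ≠ 0`.  For the remaining finitely many
primes we use the finiteness theorem of the starting files.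
-/

set_option autoImplicit false

namespace Pool.Agent.Results.MP_5f2860_nt.UniformInP

open Polynomial NumberField Filter Topology
open Pool.Agent.H637R2.Leo (Leopoldt)

/-- the polynomial `f_t = ∏ (Y - a_i t) ∏ ((Y - b_k t)² + c_k t²) - 1` -/
noncomputable def f {r₁ r₂ : ℕ} (a : Fin r₁ → ℤ) (b c : Fin r₂ → ℤ) (t : ℤ) : ℤ[X] :=
  (∏ i, (X - C (a i * t))) * (∏ k, ((X - C (b k * t)) ^ 2 + C (c k * t ^ 2))) - 1

/-- `f_t` is irreducible and its root fields have `r₁` real and `r₂` complex places and satisfy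
Leopoldt's conjecture at all primes `p` in the set `Q` -/
def Good {r₁ r₂ : ℕ} (a : Fin r₁ → ℤ) (b c : Fin r₂ → ℤ) (t : ℤ) (Q : Set ℕ) : Prop :=
  Irreducible (f a b c t) ∧
    ∀ (K : Type) [Field K] [NumberField K] (θ : K), aeval θ (f a b c t) = 0 →
      IntermediateField.adjoin ℚ {θ} = ⊤ →
      InfinitePlace.nrRealPlaces K = r₁ ∧ InfinitePlace.nrComplexPlaces K = r₂ ∧
        ∀ (p : ℕ) [Fact p.Prime], p ∈ Q → Leopoldt K p

theorem spec_eq {r₁ r₂ : ℕ} (a : Fin r₁ → ℤ) (b c : Fin r₂ → ℤ) (t : ℤ) :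
    Pool.Agent.H33R4.spec t (Pool.Agent.H33R4.fam a b c) = f a b c t := by
  unfold Pool.Agent.H33R4.spec Pool.Agent.H33R4.fam f
  rw [Polynomial.map_sub, Polynomial.map_one, Fintype.prod_sum_type, Polynomial.map_mul,
    Polynomial.map_prod, Polynomial.map_prod]
  congr 2
  · refine Finset.prod_congr rfl fun i _ => ?_
    simp [Pool.Agent.H33R4.fac]
  · refine Finset.prod_congr rfl fun k _ => ?_
    simp [Pool.Agent.H33R4.fac]

theorem Good.mono {r₁ r₂ : ℕ} {a : Fin r₁ → ℤ} {b c : Fin r₂ → ℤ} {t : ℤ} {Q Q' : Set ℕ}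
    (h : Good a b c t Q) (hQ : ∀ p ∈ Q', p.Prime → p ∈ Q) : Good a b c t Q' := by
  refine ⟨h.1, fun K _ _ θ hθ hgen => ?_⟩
  obtain ⟨h1, h2, h3⟩ := h.2 K θ hθ hgen
  exact ⟨h1, h2, fun p hp hpQ => h3 p (hQ p hpQ hp.out)⟩

/-- **Main result.** -/
theorem result (r₁ r₂ : ℕ) (h : 1 ≤ r₁ + r₂) (a : Fin r₁ → ℤ) (b c : Fin r₂ → ℤ)
    (ha : Function.Injective a) (hbc : Function.Injective (fun k => (b k, c k)))
    (hc : ∀ k, 0 < c k) :
    (∃ (S₀ : Finset ℤ) (S : ℕ → Finset ℤ),
      (∀ p : ℕ, (∀ t ∈ S p, ¬ (p : ℤ) ∣ t) ∧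
        ∀ x : ZMod p, ((S p).filter fun t : ℤ => (t : ZMod p) = x).card ≤ r₁ + r₂ - 1) ∧
      ∀ t ∉ S₀, Good a b c t {p | t ∉ S p}) ∧
    (∀ C : ℕ, Tendsto (fun X : ℕ => ({t : ℤ | |t| ≤ X ∧
      ¬ Good a b c t {p | p ≤ C * Nat.sqrt X ∨ (p : ℤ) ∣ t}}.ncard : ℝ) / X) atTop (𝓝 0)) ∧
    ∀ P : ℕ → ℕ, Tendsto (fun X : ℕ => (P X : ℝ) / X) atTop (𝓝 0) → ∀ ε : ℝ, 0 < ε →
      Tendsto (fun X : ℕ => ({t : ℤ | |t| ≤ X ∧ ¬ ∃ Q : Finset ℕ, Q ⊆ (Finset.Icc 1 (P X)).filter
        Nat.Prime ∧ (1 - ε) * Nat.primeCounting (P X) ≤ Q.card ∧ Good a b c t Q}.ncard : ℝ) / X)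
        atTop (𝓝 0) := by
  classical
  obtain ⟨S₀, S, hS1, hSn, hS2⟩ := Pool.Agent.W5h5.LD.main_sets r₁ r₂ h a b c ha hbc hc
  simp only [spec_eq] at hS2
  have hgood : ∀ t ∉ S₀, Good a b c t {p | t ∉ S p} := by
    intro t ht
    refine ⟨(hS2 t ht).1, fun K _ _ θ hθ hgen => ?_⟩
    obtain ⟨h1, h2, h3⟩ := (hS2 t ht).2 K θ hθ hgen
    exact ⟨h1, h2, fun p hp hpt => h3 p hpt⟩
  have hcard : ∀ p : ℕ, (S p).card ≤ (r₁ + r₂ - 1) * p := by
    intro p
    rcases Nat.eq_zero_or_pos p with hp | hp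
    · subst hp
      rw [hSn 0 Nat.not_prime_zero, Finset.card_empty]
      exact Nat.zero_le _
    · exact Pool.Agent.W5h5.LD.card_le_of_classes p hp _ _ (hS1 p).2
  refine ⟨⟨S₀, S, hS1, hgood⟩, fun C => ?_, fun P hP ε hε => ?_⟩
  · have h1 := Pool.Agent.W5h5.LD.sum_primes_small C
    have h2 : Tendsto (fun X : ℕ => (S₀.card : ℝ) / X + (((r₁ + r₂ - 1 : ℕ) : ℝ)) *
        (((∑ p ∈ (Finset.Icc 1 (C * Nat.sqrt X)).filter Nat.Prime, p : ℕ) : ℝ) / X)) atTop
        (𝓝 (0 + ((r₁ + r₂ - 1 : ℕ) : ℝ) * 0)) :=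
      (tendsto_const_div_atTop_nhds_zero_nat _).add (h1.const_mul _)
    rw [mul_zero, add_zero] at h2
    refine squeeze_zero (fun X => by positivity) (fun X => ?_) h2
    set T : Finset ℤ := S₀ ∪ ((Finset.Icc 1 (C * Nat.sqrt X)).filter Nat.Prime).biUnion S with hT
    have hTc : T.card ≤ S₀.card + (r₁ + r₂ - 1) *
        ∑ p ∈ (Finset.Icc 1 (C * Nat.sqrt X)).filter Nat.Prime, p := by
      refine (Finset.card_union_le _ _).trans (Nat.add_le_add_left ?_ _)
      refine Finset.card_biUnion_le.trans ?_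
      rw [Finset.mul_sum]
      exact Finset.sum_le_sum fun q _ => hcard q
    have h3 : {t : ℤ | |t| ≤ X ∧
        ¬ Good a b c t {p | p ≤ C * Nat.sqrt X ∨ (p : ℤ) ∣ t}}.ncard ≤ T.card := by
      rw [← Set.ncard_coe_finset]
      refine Set.ncard_le_ncard (fun t ht => ?_) T.finite_toSet
      by_contra htT
      rw [Finset.mem_coe, hT, Finset.mem_union, not_or] at htT
      apply ht.2
      refine (hgood t htT.1).mono fun p hp hpp => ?_
      rcases hp with hp | hp
      · exact fun hmem => htT.2 (Finset.mem_biUnion.2 ⟨p, Finset.mem_filter.2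
          ⟨Finset.mem_Icc.2 ⟨hpp.one_lt.le, hp⟩, hpp⟩, hmem⟩)
      · exact fun hmem => (hS1 p).1 t hmem hp
    have h4 : ({t : ℤ | |t| ≤ X ∧
        ¬ Good a b c t {p | p ≤ C * Nat.sqrt X ∨ (p : ℤ) ∣ t}}.ncard : ℝ) ≤
        (S₀.card : ℝ) + ((r₁ + r₂ - 1 : ℕ) : ℝ) *
          ((∑ p ∈ (Finset.Icc 1 (C * Nat.sqrt X)).filter Nat.Prime, p : ℕ) : ℝ) := by
      exact_mod_cast h3.trans hTc
    calc _ ≤ ((S₀.card : ℝ) + ((r₁ + r₂ - 1 : ℕ) : ℝ) *
          ((∑ p ∈ (Finset.Icc 1 (C * Nat.sqrt X)).filter Nat.Prime, p : ℕ) : ℝ)) / X :=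
          div_le_div_of_nonneg_right h4 (Nat.cast_nonneg _)
      _ = _ := by rw [add_div, mul_div_assoc]
  · set r : ℕ := r₁ + r₂ - 1 with hr
    have h2 : Tendsto (fun X : ℕ => (S₀.card : ℝ) / X + (r : ℝ) / ε * ((P X : ℝ) / X)) atTop
        (𝓝 (0 + (r : ℝ) / ε * 0)) :=
      (tendsto_const_div_atTop_nhds_zero_nat _).add (hP.const_mul _)
    rw [mul_zero, add_zero] at h2
    refine squeeze_zero (fun X => by positivity) (fun X => ?_) h2
    set L : Finset ℕ := (Finset.Icc 1 (P X)).filter Nat.Prime with hL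
    have hLc : L.card = Nat.primeCounting (P X) := by
      rw [Nat.primeCounting, Nat.primeCounting', Nat.count_eq_card_filter_range]
      congr 1
      ext q
      rw [hL, Finset.mem_filter, Finset.mem_filter, Finset.mem_Icc, Finset.mem_range]
      constructor
      · rintro ⟨h1, h2⟩
        exact ⟨by omega, h2⟩
      · rintro ⟨h1, h2⟩
        exact ⟨⟨h2.one_lt.le, by omega⟩, h2⟩
    -- the bad set
    set B : Set ℤ := {t : ℤ | |t| ≤ X ∧ ¬ ∃ Q : Finset ℕ, Q ⊆ L ∧
      (1 - ε) * Nat.primeCounting (P X) ≤ Q.card ∧ Good a b c t Q} with hB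
    have hBfin : B.Finite := by
      refine (Set.finite_Icc (-(X : ℤ)) X).subset fun t ht => ?_
      exact abs_le.1 ht.1
    set B' : Finset ℤ := hBfin.toFinset \ S₀ with hB'
    have hBc : B.ncard ≤ S₀.card + B'.card := by
      rw [Set.ncard_eq_toFinset_card _ hBfin]
      refine (Finset.card_le_card (t := S₀ ∪ B') ?_).trans (Finset.card_union_le _ _)
      intro t ht
      rw [Finset.mem_union, hB', Finset.mem_sdiff]
      tauto
    -- a bad integer lies in many of the sets `S p`
    have hmany : ∀ t ∈ B', ε * L.card ≤ (L.filter fun p => t ∈ S p).card := by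
      intro t ht
      rw [hB', Finset.mem_sdiff, Set.Finite.mem_toFinset] at ht
      by_contra hcon
      rw [not_le] at hcon
      apply ht.1.2
      refine ⟨L.filter fun p => t ∉ S p, Finset.filter_subset _ _, ?_, ?_⟩
      · have h5 : (L.filter fun p => t ∈ S p).card + (L.filter fun p => t ∉ S p).card = L.card :=
          Finset.card_filter_add_card_filter_not _
        have h6 : ((L.filter fun p => t ∈ S p).card : ℝ) + (L.filter fun p => t ∉ S p).card =
            L.card := by exact_mod_cast h5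
        rw [← hLc]
        linarith
      · refine (hgood t ht.2).mono fun p hp _ => ?_
        rw [Finset.mem_coe, Finset.mem_filter] at hp
        exact hp.2
    have hLP : ∀ p ∈ L, p ≤ P X := fun p hp => (Finset.mem_Icc.1 (Finset.mem_filter.1 hp).1).2
    have hdc : ∑ t ∈ B', (L.filter fun p => t ∈ S p).card ≤ L.card * (r * P X) := by
      have hsw : ∑ t ∈ B', (L.filter fun p => t ∈ S p).card =
          ∑ p ∈ L, (B'.filter fun t => t ∈ S p).card :=
        Finset.sum_card_bipartiteAbove_eq_sum_card_bipartiteBelow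
          (s := B') (t := L) (fun (t : ℤ) (p : ℕ) => t ∈ S p)
      rw [hsw, ← smul_eq_mul]
      refine Finset.sum_le_card_nsmul _ _ _ fun p hp => ?_
      refine (Finset.card_le_card (t := S p) fun t ht => ?_).trans
        ((hcard p).trans (Nat.mul_le_mul_left _ (hLP p hp)))
      exact (Finset.mem_filter.1 ht).2
    have hB'c : (B'.card : ℝ) ≤ (r : ℝ) / ε * P X := by
      rcases Nat.eq_zero_or_pos L.card with h0 | h0
      · have hemp : B' = ∅ := by
          by_contra hne
          obtain ⟨t, ht⟩ := Finset.nonempty_of_ne_empty hne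
          rw [hB', Finset.mem_sdiff, Set.Finite.mem_toFinset] at ht
          apply ht.1.2
          refine ⟨∅, Finset.empty_subset _, ?_, ?_⟩
          · rw [← hLc, h0]
            simp
          · refine (hgood t ht.2).mono fun p hp _ => ?_
            simp at hp
        rw [hemp, Finset.card_empty, Nat.cast_zero]
        positivity
      · have h0' : (0 : ℝ) < L.card := by exact_mod_cast h0
        have h7 : (B'.card : ℝ) * (ε * L.card) ≤ (L.card : ℝ) * (r * P X) := by
          calc (B'.card : ℝ) * (ε * L.card) = ∑ _t ∈ B', ε * (L.card : ℝ) := by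
                rw [Finset.sum_const, nsmul_eq_mul]
            _ ≤ ∑ t ∈ B', ((L.filter fun p => t ∈ S p).card : ℝ) :=
                Finset.sum_le_sum fun t ht => hmany t ht
            _ ≤ (L.card : ℝ) * (r * P X) := by exact_mod_cast hdc
        have h8 : (B'.card : ℝ) * ε ≤ r * P X := by
          have h9 : (L.card : ℝ) * ((B'.card : ℝ) * ε) ≤ L.card * (r * P X) := by linarith
          exact le_of_mul_le_mul_left h9 h0'
        rw [div_mul_eq_mul_div, le_div_iff₀ hε]
        exact h8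
    calc ((B.ncard : ℕ) : ℝ) / X ≤ ((S₀.card : ℝ) + (r : ℝ) / ε * P X) / X := by
          apply div_le_div_of_nonneg_right _ (Nat.cast_nonneg _)
          have h10 : ((B.ncard : ℕ) : ℝ) ≤ (S₀.card : ℝ) + B'.card := by exact_mod_cast hBc
          linarith
      _ = _ := by rw [add_div, mul_div_assoc]

end Pool.Agent.Results.MP_5f2860_nt.UniformInP
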